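import Pool.Agent.U536.CF.TU
import Pool.Agent.Results.MP_c82530_nt.MultiplicativeValues

/-!
# Gel'fond's conjecture in bounded degree for integers with large common factors with the values of multiplicative functions

Let `F_(i,j)` be positive multiplicative functions of at most polynomial growth such that `F_(i,j) p ≤ M p` for the large
primes `p`, with different values at different large primes; for example Euler's function or the sum of the divisors. Let
`ω_0 ≠ 0, ω_1, …, ω_m` be algebraic numbers, for instance an integral basis of a number field, and `θ_1, …, θ_r` distinct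
algebraic numbers. Let `b < 1` and `0 ≤ c < 2 b - 1`. For all choices of the `k (m + 1)` integers `n_(i,j)` in `[1, N]` but
`N^(k (m + 1)) exp (-(log N)^c)`, for EVERY family `w` of integers `w_(i,j) ≥ exp ((log N)^b)` such that
`gcd(w_(i,j), F_(i,j)(n_(i,j))) ≥ w_(i',j')^ρ` for all indices, for all choices of the signs, let
`β_i = ± w_(i,0) ω_0 ± … ± w_(i,m) ω_m`; then the numbers `e^α_1, …, e^α_l` and the logarithms of the `k r` numbers `β_i + θ_s`
(for every choice of these logarithms) satisfy no polynomial relation of degree at most `δ` over a number field of degree at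
most `d`. Here `α_1, …, α_l` are any `ℚ`-linearly independent algebraic numbers, the bound `N ≥ N₀` does not depend on them, and
`ρ < 1` depends only on `k`, the `ω_j`, the `θ_s`, `l`, `δ` and `d`. The families `w` include all families of large divisors
`w_(i,j)` of the `F_(i,j)(n_(i,j))` of comparable size and their multiples by small integers.

Proof. But for few exceptional `n ≤ N`, the number of `n` with `g ∣ F(n)` is at most `N τ_J(g) / g` up to a factor
`exp ((log N)^s)`, `J = (log N)^a`, `a < s < b`, for all `g`: write `n = k u` with `u` squarefree and composed of primes larger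
than `N^(1/J)`, `k ≤ exp (4 (log N)^a)`. If `w` is an exceptional family with entries `≤ X`, then the `g = gcd(w, F(n))` are
divisors of the `w` of size `≥ (X/2)^ρ`; there are few such families of divisors, and the inequality `τ_J^q ≤ τ_K` for `K ≥ J^q`
with Hölder's inequality for tuples bounds the sum of `∏ τ_J(g) / g`. The file `MultiplicativeValues` of the starting library
treats the families `w = (F_(i,j)(n_(i,j)))` only, with `N^(k (m + 1)) / (log N)^A` exceptions.
-/

set_option autoImplicit false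

namespace Pool.Agent.Results.MP_c82530_nt.CommonFactors

open Pool.Agent.N733.TG (LM lm_totient lm_sigma)
open Pool.Agent.U536.CF (CommonT avoidT exists_rho)
open Pool.Agent.Results.MP_c82530_nt.NumberFieldTuples (Related)

/-- all `w_(i,j) ≥ exp ((log N)^b)`, and `gcd(w_(i,j), F_(i,j)(n_(i,j))) ≥ w_(i',j')^ρ` for all indices -/
def CommonFamily {k m : ℕ} (F : Fin k → Fin (m + 1) → ℕ → ℕ) (b ρ : ℝ) (N : ℕ) (n w : Fin k → Fin (m + 1) → ℕ) : Prop :=
  ∀ i j, Real.exp (Real.log N ^ b) ≤ (w i j : ℝ) ∧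
    ∀ i' j', (w i' j' : ℝ) ^ ρ ≤ (Nat.gcd (w i j) (F i j (n i j)) : ℝ)

/-- **Gel'fond's conjecture in bounded degree for integers with large common factors with the values of multiplicative
functions.** Let `ω_0 ≠ 0, ω_1, …, ω_m` be algebraic numbers and `θ_1, …, θ_r` distinct algebraic numbers. There is `ρ < 1` such
that the following holds. Let the `F_(i,j)`, `1 ≤ i ≤ k`, `0 ≤ j ≤ m`, be multiplicative and positive, of at most polynomial
growth, with `F_(i,j) p ≤ M p` at the large primes, and injective there. Let `b < 1` and `0 ≤ c < 2 b - 1`. For all large `N`, for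
all `ℚ`-linearly independent algebraic numbers `α_1, …, α_l`, for all families `n_(i,j)` of integers in `[1, N]` but at most
`N^(k (m + 1)) exp (-(log N)^c)`, for EVERY family `w` of integers `w_(i,j) ≥ exp ((log N)^b)` such that
`gcd(w_(i,j), F_(i,j)(n_(i,j))) ≥ w_(i',j')^ρ` for all indices, for all integers `a_(i,j)` with `|a_(i,j)| = w_(i,j)` the numbers
`e^α_1, …, e^α_l` and the logarithms of the numbers `a_(i,0) ω_0 + … + a_(i,m) ω_m + θ_s` (for every choice of these logarithms)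
satisfy no polynomial relation of degree at most `δ` over a number field of degree at most `d`. Families of divisors
`w_(i,j) ≥ exp ((log N)^b)` of the `F_(i,j)(n_(i,j))` with `w_(i',j')^ρ ≤ w_(i,j)` for all indices are such families. Euler's
function and the sum of the divisors are examples of such functions. -/
theorem result :
    (∀ k m : ℕ, 1 ≤ k → ∀ ω : Fin (m + 1) → ℂ, (∀ j, IsAlgebraic ℚ (ω j)) → ω 0 ≠ 0 →
      ∀ (r : ℕ) (θ : Fin r → ℂ), (∀ j, IsAlgebraic ℚ (θ j)) → Function.Injective θ → ∀ l δ d : ℕ,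
      ∃ ρ : ℝ, 0 < ρ ∧ ρ < 1 ∧ ∀ F : Fin k → Fin (m + 1) → ℕ → ℕ, (∀ i j, LM (F i j)) →
      ∀ b c : ℝ, b < 1 → 0 ≤ c → c < 2 * b - 1 →
      ∃ N₀ : ℕ, ∀ N : ℕ, N₀ ≤ N → ∀ α : Fin l → ℂ, (∀ i, IsAlgebraic ℚ (α i)) → LinearIndependent ℚ α →
      ({n : Fin k → Fin (m + 1) → ℕ | (∀ i j, 1 ≤ n i j ∧ n i j ≤ N) ∧
        ¬ ∀ w : Fin k → Fin (m + 1) → ℕ, CommonFamily F b ρ N n w →
        ∀ a : Fin k → Fin (m + 1) → ℤ, (∀ i j, (a i j).natAbs = w i j) → ¬ Related δ d α ω θ a}.ncard : ℝ) ≤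
        (N : ℝ) ^ (k * (m + 1)) * Real.exp (-(Real.log N ^ c))) ∧
    (LM Nat.totient ∧ LM (fun m => ∑ d ∈ m.divisors, d)) ∧
    ∀ (k m : ℕ) (F : Fin k → Fin (m + 1) → ℕ → ℕ) (b ρ : ℝ) (N : ℕ) (n w : Fin k → Fin (m + 1) → ℕ),
      (∀ i j, Real.exp (Real.log N ^ b) ≤ (w i j : ℝ)) → (∀ i j, w i j ∣ F i j (n i j)) →
      (∀ i j i' j', (w i' j' : ℝ) ^ ρ ≤ (w i j : ℝ)) → CommonFamily F b ρ N n w := by
  refine ⟨?_, ⟨lm_totient, lm_sigma⟩, fun k m F b ρ N n w h1 h2 h3 i j => ⟨h1 i j, fun i' j' => ?_⟩⟩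
  swap
  · rw [Nat.gcd_eq_left (h2 i j)]
    exact h3 i j i' j'
  intro k m hk ω hω hω0 r θ hθ hinj l δ d
  obtain ⟨c, hc, C, hC⟩ := Pool.Agent.Results.MP_c82530_nt.NumberFieldTuples.result ω hω hω0 θ hθ hinj k l δ d
  let e : Fin k × Fin (m + 1) ≃ Fin (k * (m + 1)) := finProdFinEquiv
  have hk1 : 1 ≤ k * (m + 1) := Nat.mul_pos hk (Nat.succ_pos m)
  obtain ⟨ρ, hρ0, hρ1, hρ⟩ := exists_rho hk1 hc
  refine ⟨ρ, hρ0, hρ1, fun F hF b c₁ hb hc₁ hcb => ?_⟩
  obtain ⟨N₀, hN₀⟩ := avoidT (k := k * (m + 1)) hk1 (F := fun p => F (e.symm p).1 (e.symm p).2)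
    (fun p => hF _ _) hρ0 hρ1.le hρ C hb hc₁ hcb
  refine ⟨N₀, fun N hN α hα hli => ?_⟩
  have key := hN₀ N hN {w : Fin (k * (m + 1)) → ℕ | ∃ a : Fin k → Fin (m + 1) → ℤ,
    (∀ i j, (a i j).natAbs = w (e (i, j))) ∧ Related δ d α ω θ a} (fun X hX => ?_)
  · refine le_trans ?_ key
    have hfin : {n : Fin (k * (m + 1)) → ℕ | (∀ p, 1 ≤ n p ∧ n p ≤ N) ∧
        ∃ w ∈ {w : Fin (k * (m + 1)) → ℕ | ∃ a : Fin k → Fin (m + 1) → ℤ,
        (∀ i j, (a i j).natAbs = w (e (i, j))) ∧ Related δ d α ω θ a},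
        CommonT (fun p => F (e.symm p).1 (e.symm p).2) b ρ N n w}.Finite := by
      apply (Set.finite_Icc (fun _ => 1) (fun _ => N)).subset
      intro n hn
      exact ⟨fun p => (hn.1 p).1, fun p => (hn.1 p).2⟩
    have h1 := Set.ncard_le_ncard_of_injOn (s := {n : Fin k → Fin (m + 1) → ℕ | (∀ i j, 1 ≤ n i j ∧ n i j ≤ N) ∧
        ¬ ∀ w : Fin k → Fin (m + 1) → ℕ, CommonFamily F b ρ N n w →
        ∀ a : Fin k → Fin (m + 1) → ℤ, (∀ i j, (a i j).natAbs = w i j) → ¬ Related δ d α ω θ a})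
      (fun n p => n (e.symm p).1 (e.symm p).2) (fun n hn => ?_) (fun n _ n' _ h => ?_) hfin
    · exact_mod_cast h1
    · obtain ⟨h2, h3⟩ := hn
      push Not at h3
      obtain ⟨w, hw, a, ha, hR⟩ := h3
      refine ⟨fun p => h2 _ _, fun p => w (e.symm p).1 (e.symm p).2, ⟨a, fun i j => ?_, hR⟩, fun p => ⟨(hw _ _).1, fun p' => ?_⟩⟩
      · simpa using ha i j
      · exact (hw (e.symm p).1 (e.symm p).2).2 (e.symm p').1 (e.symm p').2
    · funext i j
      have := congrFun h (e (i, j))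
      simpa using this
  · obtain ⟨h1, h2⟩ := hC α hα hli X hX
    refine le_trans ?_ h2
    have h3 : {w : Fin (k * (m + 1)) → ℕ | (∀ p, 2 ≤ w p ∧ w p ≤ X) ∧
        w ∈ {w : Fin (k * (m + 1)) → ℕ | ∃ a : Fin k → Fin (m + 1) → ℤ,
        (∀ i j, (a i j).natAbs = w (e (i, j))) ∧ Related δ d α ω θ a}} ⊆
        (fun (a : Fin k → Fin (m + 1) → ℤ) (p : Fin (k * (m + 1))) => (a (e.symm p).1 (e.symm p).2).natAbs) ''
        {n : Fin k → Fin (m + 1) → ℤ | (∀ i j, |n i j| ≤ X) ∧ Related δ d α ω θ n} := by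
      rintro w ⟨h4, a, ha, hR⟩
      refine ⟨a, ⟨fun i j => ?_, hR⟩, ?_⟩
      · rw [Int.abs_eq_natAbs, ha i j]
        exact_mod_cast (h4 (e (i, j))).2
      · funext p
        show (a (e.symm p).1 (e.symm p).2).natAbs = w p
        rw [ha, Prod.mk.eta, Equiv.apply_symm_apply]
    exact_mod_cast (Set.ncard_le_ncard h3 (h1.image _)).trans (Set.ncard_image_le h1)

end Pool.Agent.Results.MP_c82530_nt.CommonFactors
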