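import Pool.Agent.U449.BV.VU
import Pool.Agent.Results.MP_c82530_nt.NumberFieldTuples

/-!
# Gel'fond's conjecture in bounded degree near the coordinates of polynomials on arbitrary sets

Let `ω_0 ≠ 0, ω_1, …, ω_m` be algebraic numbers, for instance an integral basis of a number field, and `θ_1, …, θ_r` distinct
algebraic numbers, `s = k (m + 1)`. There is `c > 0` such that the following holds for `κ ≥ 0`, `s - c + s κ < δ ≤ s`. Let `p` be a
large prime, `f(x, y)` ANY polynomial of degree at most `D` over the field of `p ^ s` elements with a monomial which contains both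
variables (for example `f = x y`), let `A`, `B` be ARBITRARY subsets of this field with at least `p ^ δ` elements, and `g`, `h`
ARBITRARY functions. For all the pairs `(a, b)` in `A × B`, apart from a proportion of at most `p ^ (-ρ)`, ALL families `n_(i,j)` of
integers at a distance of at most `p ^ κ` from the family of the least residues of the `s` coordinates of `f(a, b) + g(a) + h(b)`
have the following property: let `β_i = n_(i,0) ω_0 + … + n_(i,m) ω_m`; then the numbers `e^α_1, …, e^α_l` and the logarithms of the
`k r` numbers `β_i + θ_u` (for every choice of these logarithms) satisfy no polynomial relation of degree at most `δ'` over a number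
field of degree at most `d'`. Here `α_1, …, α_l` are any `ℚ`-linearly independent algebraic numbers, and how large `p` has to be does
not depend on them. More generally, this holds for the values `F(a, b)` of all vector functions of two variables with few
coincidences (`RareV`), on arbitrary finite sets.

Since the sets and the functions `g` and `h` are arbitrary, the tuples have no arithmetic structure, and a tuple may be
taken by very many pairs. So the number of the exceptions (starting library) does not give the result directly. Proof: the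
inequality of Cauchy and Schwarz; for most pairs `a, a'` the difference `F(a, b) - F(a', b)` is small for few `b`
(`Pool.Agent.U449.BV`).
-/

set_option autoImplicit false

namespace Pool.Agent.Results.MP_c82530_nt.MixedPolynomials

open Finset
open Pool.Agent.U449.BV (RareV OnProductsU on_products_int_saving coordinates)
open Pool.Agent.Results.MP_c82530_nt.NumberFieldTuples (Related)

/-- ALL families `n_(i,j)`, `1 ≤ i ≤ k`, `0 ≤ j ≤ m`, of integers with `|n_(i,j) - x_(i,j)| ≤ W` for all `i`, `j` (the `k (m + 1)` numbers
`x_(i,j)` are the coordinates of `x`) have the following property: the numbers `e^α_1, …, e^α_l` and the logarithms of the numbers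
`β_i + θ_s`, `β_i = n_(i,0) ω_0 + … + n_(i,m) ω_m`, satisfy no polynomial relation of degree at most `δ` over a number field of degree
at most `d`. -/
def Near {m r l : ℕ} (k δ d : ℕ) (ω : Fin (m + 1) → ℂ) (θ : Fin r → ℂ) (α : Fin l → ℂ) (W : ℝ)
    (x : Fin (k * (m + 1)) → ℝ) : Prop :=
  ∀ n : Fin k → Fin (m + 1) → ℤ, (∀ i j, |(n i j : ℝ) - x (finProdFinEquiv (i, j))| ≤ W) → ¬ Related δ d α ω θ n

/-- **Theorem.** Let `k ≥ 1`, `ω_0 ≠ 0, ω_1, …, ω_m` algebraic numbers, `θ_1, …, θ_r` distinct algebraic numbers, `l`, `δ'`, `d'` natural numbers.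
There is `c > 0` such that for all `κ ≥ 0` the property `Near`, with windows of length `X ^ κ`, holds, uniformly in the `ℚ`-linearly
independent algebraic numbers `α_1, …, α_l`, for almost all values of vector functions of two variables with few coincidences, on
arbitrary finite sets of at least `X ^ δ` elements, `s - c + s κ < δ ≤ s = k (m + 1)` (`OnProductsU`).
The tuples of the least residues modulo `p` of the coordinates (with respect to a basis over the field of `p` elements) of
`f(a, b) + g(a) + h(b)` in a field of `p ^ k` elements are such a function, with `X = p`, for all polynomials `f` over this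
field with a monomial which contains both variables, arbitrary functions `g` and `h`, and arbitrary finite subsets. -/
theorem result :
    (∀ k m r l δ' d' : ℕ, 1 ≤ k → ∀ ω : Fin (m + 1) → ℂ, (∀ j, IsAlgebraic ℚ (ω j)) → ω 0 ≠ 0 →
      ∀ θ : Fin r → ℂ, (∀ j, IsAlgebraic ℚ (θ j)) → Function.Injective θ → ∃ c : ℝ, 0 < c ∧ ∀ κ : ℝ, 0 ≤ κ →
        OnProductsU (k * (m + 1)) (((k * (m + 1) : ℕ) : ℝ) - c + ((k * (m + 1) : ℕ) : ℝ) * κ) κ
          (fun α : {α : Fin l → ℂ // (∀ i, IsAlgebraic ℚ (α i)) ∧ LinearIndependent ℚ α} => Near k δ' d' ω θ α.1)) ∧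
    ∀ (p : ℕ) [Fact p.Prime] (k : ℕ) (K : Type) [Field K] [Algebra (ZMod p) K] (e : Module.Basis (Fin k) (ZMod p) K)
      (d : ℕ) (f : MvPolynomial (Fin 2) K), f.totalDegree ≤ d → (∃ m ∈ f.support, m 0 ≠ 0 ∧ m 1 ≠ 0) →
      ∀ (g h : K → K) (A B : Finset K),
        RareV d A B (fun a b i => (((e.repr (MvPolynomial.eval ![a, b] f + g a + h b) i).val : ℕ) : ℝ)) := by
  refine ⟨fun k m r l δ d hk ω hω hω0 θ hθ hinj => ?_, coordinates⟩
  obtain ⟨c, hc, C, hC⟩ := NumberFieldTuples.result ω hω hω0 θ hθ hinj k l δ d
  have hk1 : 1 ≤ k * (m + 1) := Nat.mul_pos hk (Nat.succ_pos m)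
  have hk2 : (0 : ℝ) < ((k * (m + 1) : ℕ) : ℝ) := by exact_mod_cast hk1
  refine ⟨min c ((k * (m + 1) : ℕ) : ℝ), lt_min hc hk2, fun κ hκ => ?_⟩
  refine (on_products_int_saving (k := k * (m + 1))
    (Ω := {α : Fin l → ℂ // (∀ i, IsAlgebraic ℚ (α i)) ∧ LinearIndependent ℚ α})
    (fun α => {w : Fin (k * (m + 1)) → ℤ | Related δ d α.1 ω θ fun i j => w (finProdFinEquiv (i, j))}) (c := c) (C := C) hκ
    (fun α X hX => ?_)).mono id (fun α W x _ h' n hn hR => ?_)
  · obtain ⟨hf, hle⟩ := hC α.1 α.2.1 α.2.2 X hX
    refine le_trans (Nat.cast_le.2 ?_) hle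
    refine Set.ncard_le_ncard_of_injOn (fun w i j => w (finProdFinEquiv (i, j))) ?_ ?_ hf
    · rintro w ⟨hw1, hw2⟩
      exact ⟨fun i j => hw1 _, hw2⟩
    · intro w _ w' _ h
      funext v
      have e : finProdFinEquiv ((finProdFinEquiv.symm v).1, (finProdFinEquiv.symm v).2) = v := by
        rw [Prod.mk.eta, Equiv.apply_symm_apply]
      have h2 : w (finProdFinEquiv ((finProdFinEquiv.symm v).1, (finProdFinEquiv.symm v).2)) =
          w' (finProdFinEquiv ((finProdFinEquiv.symm v).1, (finProdFinEquiv.symm v).2)) :=
        congrFun (congrFun h (finProdFinEquiv.symm v).1) (finProdFinEquiv.symm v).2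
      rwa [e] at h2
  · refine h' (fun v => n (finProdFinEquiv.symm v).1 (finProdFinEquiv.symm v).2) (fun v => ?_) ?_
    · have e : finProdFinEquiv ((finProdFinEquiv.symm v).1, (finProdFinEquiv.symm v).2) = v := by
        rw [Prod.mk.eta, Equiv.apply_symm_apply]
      have h2 := hn (finProdFinEquiv.symm v).1 (finProdFinEquiv.symm v).2
      rw [e] at h2
      exact h2
    · have e2 : (fun i j => n (finProdFinEquiv.symm (finProdFinEquiv (i, j))).1
          (finProdFinEquiv.symm (finProdFinEquiv (i, j))).2) = n := by
        funext i j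
        rw [Equiv.symm_apply_apply]
      show Related δ d α.1 ω θ (fun i j => n (finProdFinEquiv.symm (finProdFinEquiv (i, j))).1
        (finProdFinEquiv.symm (finProdFinEquiv (i, j))).2)
      rw [e2]
      exact hR

end Pool.Agent.Results.MP_c82530_nt.MixedPolynomials
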