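import Mathlib
import Pool.Agent.U945.AL.Quo

/-!
# Quotients of logarithms at the algebraic points of a line

Gel'fond's conjecture says in particular that logarithms `λ_1, λ_2, ξ, η` of algebraic numbers satisfy
`λ_1 η = λ_2 ξ` only if this is a consequence of linear relations with rational coefficients.  By the
six exponentials theorem, for given `λ_1, λ_2`, linearly independent over `ℚ`, the logarithms `ξ` of
algebraic numbers such that `η = (λ_2 / λ_1) ξ` is a logarithm of an algebraic number form a space of
dimension at most two over `ℚ`.  We study the pairs of algebraic numbers `(x, y) = (exp ξ, exp η)`, and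
show that they are in general position: there is an absolute constant `C` such that no line
`a x + b y = 1` of the complex plane (`a`, `b` any complex numbers different from zero) contains more
than `C` of them, for all determinations of the logarithms together.

1. Let `s` be any complex number which is not rational.  On each line `a x + b y = 1` there are at most
   `C` points `(x, y)` with algebraic coordinates such that `s` is a quotient `log y / log x`; more
   exactly such that `x = exp ξ` and `y = exp (s ξ)` for some complex `ξ`.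

2. The same in the setting of linear forms in logarithms and exponentials.  Let `LogForms` be the space
   of the linear combinations, with algebraic coefficients, of `1` and of logarithms of algebraic
   numbers.  Let `s`, `t` be transcendental numbers, and let `V` be a space of dimension at most `k` over
   the field of algebraic numbers.  On each line `a x + b y = 1` there are at most `C ^ (k + 1)` points
   with nonzero algebraic coordinates which have logarithms `ξ`, `η` such that `s ξ` and `t η` are in
   `LogForms + V`.

   For instance let `s = t = λ_2 / λ_1` and `V = λ_1⁻¹ (ℚ̄ e^{α_1} + ⋯ + ℚ̄ e^{α_k})` with algebraic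
   numbers `α_i`: then for all but at most `C ^ (k + 1)` of the pairs of algebraic numbers on the line
   one of the numbers `log x`, `log y` satisfies no relation
   `λ_2 log x = λ_1 (β_0 + ∑ β_j log γ_j) + ∑ δ_i e^{α_i}` with algebraic `β_j`, `γ_j`, `δ_i` (for none
   of its determinations), as predicted by the conjecture if the numbers are independent.
-/

set_option autoImplicit false

namespace Pool.Agent.Results.MP_c82530_nt.QuotientsOnLines

/-- The linear combinations, with algebraic coefficients, of `1` and of logarithms of algebraic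
numbers. -/
noncomputable def LogForms : Submodule (algebraicClosure ℚ ℂ) ℂ :=
  Submodule.span (algebraicClosure ℚ ℂ) ({1} ∪ {z : ℂ | IsAlgebraic ℚ (Complex.exp z)})

/-- The points `(x, y)` of the line `a x + b y = 1` with algebraic coordinates such that `x = exp ξ` and
`y = exp (s ξ)` for some complex number `ξ`. -/
def PowerPoints (s a b : ℂ) : Set (ℂ × ℂ) :=
  {e | a * e.1 + b * e.2 = 1 ∧ IsAlgebraic ℚ e.1 ∧ IsAlgebraic ℚ e.2 ∧
    ∃ ξ : ℂ, Complex.exp ξ = e.1 ∧ Complex.exp (s * ξ) = e.2}

/-- The points `(x, y)` of the line `a x + b y = 1` with algebraic coordinates which have logarithms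
`ξ`, `η` such that `s ξ` and `t η` are in `LogForms + V`. -/
def StrongPoints (s t : ℂ) (V : Submodule (algebraicClosure ℚ ℂ) ℂ) (a b : ℂ) : Set (ℂ × ℂ) :=
  {e | a * e.1 + b * e.2 = 1 ∧ IsAlgebraic ℚ e.1 ∧ IsAlgebraic ℚ e.2 ∧
    (∃ ξ : ℂ, Complex.exp ξ = e.1 ∧ s * ξ ∈ LogForms ⊔ V) ∧
    ∃ η : ℂ, Complex.exp η = e.2 ∧ t * η ∈ LogForms ⊔ V}

/-- **Quotients of logarithms at the algebraic points of a line.** -/
theorem result : ∃ C : ℕ,
    (∀ s : ℂ, (∀ q : ℚ, s ≠ q) → ∀ a b : ℂ, a ≠ 0 → b ≠ 0 →
      (PowerPoints s a b).Finite ∧ (PowerPoints s a b).ncard ≤ C) ∧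
    (∀ (k : ℕ) (s t : ℂ), Transcendental ℚ s → Transcendental ℚ t →
      ∀ V : Submodule (algebraicClosure ℚ ℂ) ℂ, FiniteDimensional (algebraicClosure ℚ ℂ) V →
      Module.finrank (algebraicClosure ℚ ℂ) V ≤ k → ∀ a b : ℂ, a ≠ 0 → b ≠ 0 →
      (StrongPoints s t V a b).Finite ∧ (StrongPoints s t V a b).ncard ≤ C ^ (k + 1)) := by
  obtain ⟨C, h1, h2⟩ := Pool.Agent.U945.AL.main
  refine ⟨C, fun s hs a b ha hb => ?_, fun k s t hs ht V hV hk a b ha hb => ?_⟩
  · refine Pool.Agent.U945.AL.bounded_set (fun E hE => h1 s hs a b ha hb E (fun e he => ?_))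
    obtain ⟨h3, h4, h5, x, hx, hy⟩ := hE e he
    exact ⟨h3, x, by rw [hx]; exact h4, by rw [hy]; exact h5, hx, hy⟩
  · refine Pool.Agent.U945.AL.bounded_set
      (fun E hE => h2 k s t hs ht V hV hk a b ha hb E (fun e he => ?_))
    obtain ⟨h3, h4, h5, ⟨x, hx, hx'⟩, y, hy, hy'⟩ := hE e he
    exact ⟨h3, ⟨x, Pool.Agent.U945.AL.mem_Lam.2 ⟨by rw [hx]; exact h4, hx'⟩, hx⟩, y,
      Pool.Agent.U945.AL.mem_Lam.2 ⟨by rw [hy]; exact h5, hy'⟩, hy⟩

end Pool.Agent.Results.MP_c82530_nt.QuotientsOnLines
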