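import Pool.Agent.U405.RS.G5
import Pool.Agent.Results.MP_c82530_nt.NumberFieldTuples

/-!
# Gel'fond's conjecture in bounded degree over values of multiplicative functions in thin sets

Let `F_1, …, F_k` be positive multiplicative functions of at most polynomial growth which for each `a ≥ 1` are injective at the
powers `p ^ a` of the large primes and at most `M p ^ a` there; for example Euler's function or the sum of the divisors. Here the functions are indexed by pairs `(i, j)`, `1 ≤ i ≤ k`, `0 ≤ j ≤ m`. Let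
`ω_0 ≠ 0, ω_1, …, ω_m` be algebraic numbers, for instance an integral basis of a number field, and `θ_1, …, θ_r` distinct
algebraic numbers. For almost all families `n_(i,j)` in products of `k (m + 1)` thin sets, and for all
choices of the signs, let `β_i = ± F_(i,0)(n_(i,0)) ω_0 ± … ± F_(i,m)(n_(i,m)) ω_m`; then the numbers `e^α_1, …, e^α_l` and the
logarithms of the `k r` numbers `β_i + θ_s` (for every choice of these logarithms) satisfy no polynomial relation of degree
at most `δ` over a number field of degree at most `d`. Here `α_1, …, α_l` are any `ℚ`-linearly independent algebraic numbers,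
and the result is uniform in them.

The starting theorem `MultiplicativeValues` of this problem treats the average over all tuples `m ∈ [1, N]^k`. Here each `m_i` runs
over a thin set: the shifted primes `p + a_i`, `p ≤ x`, for an arbitrary integer `a_i`, or an interval `(u, u + h]` with
`x^τ ≤ h ≤ x`, where `u ≤ x` and `1 - c / k < τ ≤ 1`; both kinds can be mixed. The tuples of values `(F_1(m_1), …, F_k(m_k))` are taken with large and
uneven multiplicities, so that the size of the exceptional set says nothing about them.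

Proof. Own tool `Pool.Agent.U405.RS`. A thin set `S` has at most `B g^ω(n) |S| / n` multiples of `n` for every `n ≤ x^δ` (for the
shifted primes by the Brun-Titchmarsh inequality of the library). Write `m_i = n_i w_i` with `n_i` composed of the primes
`≤ z = x^(1 / J)`, `J` a small multiple of `log log x`. By Rankin's method one has `n_i ≤ x^η` for most `m_i` in `S_i`; and `w_i` has at
most `J` prime factors and exponents `≤ J`, so that it is determined by `F_i(w_i)` up to `x^o(1)` possibilities. A slab of the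
exceptional set is then covered by the fibres over one coordinate, and the saving `X^c` of the exceptional set is larger than the loss
`x^(k (1 - τ))` from the short intervals. The bound for the exceptional tuples is the starting theorem `NumberFieldTuples`.
-/

set_option autoImplicit false

namespace Pool.Agent.Results.MP_c82530_nt.ThinTuples

open Pool.Agent.U405.RS
open Pool.Agent.Results.MP_c82530_nt.NumberFieldTuples (Related)

/-- **Gel'fond's conjecture in bounded degree over thin sets.** Let `ω_0 ≠ 0, ω_1, …, ω_m` be algebraic numbers and `θ_1, …, θ_r`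
distinct algebraic numbers, `k ≥ 1`, and `l`, `δ`, `d` natural numbers. The pairs `(i, j)`, `i < k`, `j ≤ m`, are numbered by
`finProdFinEquiv`. There is `c > 0` such that for all families `F` of `k (m + 1)` functions in the class `PM`, all `U` and,
uniformly, all `ℚ`-linearly independent algebraic numbers `α_1, …, α_l`, in the sense of `ThinAll c F U`
(with a saving of `(log x)^U`, uniformly in the parameter, for almost all `m` in all products `S_1 × ⋯ × S_k` of sets of shifted
primes `p + a_i`, `p ≤ x`, and intervals `(u, u + h]`, `u ≤ x`, `x^τ ≤ h ≤ x`, whenever `0 < τ ≤ 1`, `k τ > k - c`), with `k (m + 1)` in place of `k`,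
all the values `F_(i,j)(n_(i,j))` are at least `2` and for all integers `b_(i,j)` with
`|b_(i,j)| = F_(i,j)(n_(i,j))` the numbers `e^α_1, …, e^α_l` and the logarithms of the numbers `b_(i,0) ω_0 + … + b_(i,m) ω_m + θ_s`
(for every choice of these logarithms) satisfy no polynomial relation of degree at most `δ` over a number field of degree at
most `d`. Euler's function, the sum of the divisors and the identity are in the class. -/
theorem result :
    (∀ k m : ℕ, 1 ≤ k → ∀ ω : Fin (m + 1) → ℂ, (∀ j, IsAlgebraic ℚ (ω j)) → ω 0 ≠ 0 →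
      ∀ (r : ℕ) (θ : Fin r → ℂ), (∀ j, IsAlgebraic ℚ (θ j)) → Function.Injective θ → ∀ l δ d : ℕ, ∃ c : ℝ, 0 < c ∧
      ∀ F : Fin (k * (m + 1)) → ℕ → ℕ, (∀ p, PM (F p)) → ∀ U : ℕ,
        ThinAll c F U (fun (α : Fin l → ℂ) (w : Fin (k * (m + 1)) → ℕ) =>
          ((∀ i, IsAlgebraic ℚ (α i)) ∧ LinearIndependent ℚ α) → (∀ p, 2 ≤ w p) ∧
            ∀ b : Fin k → Fin (m + 1) → ℤ, (∀ i j, (b i j).natAbs = w (finProdFinEquiv (i, j))) → ¬ Related δ d α ω θ b)) ∧
    (PM Nat.totient ∧ PM (fun m => ∑ d ∈ m.divisors, d) ∧ PM (fun m => m)) := by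
  refine ⟨fun k m hk ω hω hω0 r θ hθ hinj l δ d => ?_, examplesT⟩
  obtain ⟨c, hc, C, hC⟩ := Pool.Agent.Results.MP_c82530_nt.NumberFieldTuples.result ω hω hω0 θ hθ hinj k l δ d
  have hk1 : 1 ≤ k * (m + 1) := Nat.mul_pos hk (Nat.succ_pos m)
  refine ⟨c, hc, fun F hF U => thinAll_if hk1 hF hc C
    (fun α : Fin l → ℂ => (∀ i, IsAlgebraic ℚ (α i)) ∧ LinearIndependent ℚ α)
    (fun (α : Fin l → ℂ) (w : Fin (k * (m + 1)) → ℕ) => ∀ b : Fin k → Fin (m + 1) → ℤ,
      (∀ i j, (b i j).natAbs = w (finProdFinEquiv (i, j))) → ¬ Related δ d α ω θ b) (fun α hα X hX => ?_) U⟩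
  obtain ⟨hα, hli⟩ := hα
  obtain ⟨e, he⟩ : ∃ e : Fin k × Fin (m + 1) ≃ Fin (k * (m + 1)), e = finProdFinEquiv := ⟨_, rfl⟩
  rw [← he]
  obtain ⟨h1, h2⟩ := hC α hα hli X hX
  refine le_trans ?_ h2
  have h3 : {w : Fin (k * (m + 1)) → ℕ | (∀ p, 2 ≤ w p ∧ w p ≤ X) ∧ ¬ ∀ b : Fin k → Fin (m + 1) → ℤ,
      (∀ i j, (b i j).natAbs = w (e (i, j))) → ¬ Related δ d α ω θ b} ⊆
      (fun (b : Fin k → Fin (m + 1) → ℤ) (p : Fin (k * (m + 1))) => (b (e.symm p).1 (e.symm p).2).natAbs) ''
      {n : Fin k → Fin (m + 1) → ℤ | (∀ i j, |n i j| ≤ X) ∧ Related δ d α ω θ n} := by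
    rintro w ⟨h4, h5⟩
    push Not at h5
    obtain ⟨b, hb, hR⟩ := h5
    refine ⟨b, ⟨fun i j => ?_, hR⟩, ?_⟩
    · rw [Int.abs_eq_natAbs, hb i j]
      exact_mod_cast (h4 (e (i, j))).2
    · funext p
      show (b (e.symm p).1 (e.symm p).2).natAbs = w p
      rw [hb, Prod.mk.eta, Equiv.apply_symm_apply]
  have h6 : (({w : Fin (k * (m + 1)) → ℕ | (∀ p, 2 ≤ w p ∧ w p ≤ X) ∧ ¬ ∀ b : Fin k → Fin (m + 1) → ℤ,
      (∀ i j, (b i j).natAbs = w (e (i, j))) → ¬ Related δ d α ω θ b}.ncard : ℕ) : ℝ) ≤
      (({n : Fin k → Fin (m + 1) → ℤ | (∀ i j, |n i j| ≤ X) ∧ Related δ d α ω θ n}.ncard : ℕ) : ℝ) := by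
    exact_mod_cast (Set.ncard_le_ncard h3 (h1.image _)).trans (Set.ncard_image_le h1)
  exact h6

end Pool.Agent.Results.MP_c82530_nt.ThinTuples
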